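import Mathlib

/-! AK-J1: a nonzero interpolation determinant, generic field (after H374R2.T.TaskZ, TaskE). -/

set_option autoImplicit false
set_option linter.all false

namespace Pool.Agent.Y228.AK

open Polynomial Finset

variable {F : Type} [Field F]

/-- leading coefficient of the determinant of a matrix of polynomials whose entries in column `l`
all have degree `d l` -/
lemma det_coeff {ι : Type*} [Fintype ι] [DecidableEq ι] (M : Matrix ι ι F[X]) (d : ι → ℕ)
    (N : Matrix ι ι F) (hd : ∀ a l, (M a l).natDegree = d l) (h0 : ∀ a l, M a l ≠ 0)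
    (hl : ∀ a l, (M a l).leadingCoeff = N a l) :
    M.det.coeff (∑ l, d l) = N.det ∧ M.det.natDegree ≤ ∑ l, d l := by
  have hpd : ∀ σ : Equiv.Perm ι, (∏ l, M (σ l) l).natDegree = ∑ l, d l := by
    intro σ
    rw [natDegree_prod _ _ (fun l _ => h0 _ _)]
    exact Finset.sum_congr rfl fun l _ => hd _ _
  have hpc : ∀ σ : Equiv.Perm ι, (∏ l, M (σ l) l).coeff (∑ l, d l) = ∏ l, N (σ l) l := by
    intro σ
    rw [← hpd σ, coeff_natDegree, leadingCoeff_prod]
    exact Finset.prod_congr rfl fun l _ => hl _ _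
  constructor
  · rw [Matrix.det_apply, Matrix.det_apply, finsetSum_coeff]
    refine Finset.sum_congr rfl fun σ _ => ?_
    rw [Units.smul_def, Units.smul_def, coeff_smul, hpc]
  · rw [Matrix.det_apply]
    refine natDegree_sum_le_of_forall_le _ _ fun σ _ => ?_
    rw [Units.smul_def]
    exact (natDegree_smul_le _ _).trans (hpd σ).le

/-- a scaled Vandermonde determinant -/
lemma vand_ne {Λ : Type*} [Fintype Λ] [DecidableEq Λ] {m : ℕ} (e : Λ ≃ Fin m) (v : Λ → F)
    (hv : Function.Injective v) (u : Λ → F) (hu : ∀ l, u l ≠ 0) :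
    (Matrix.of fun a l : Λ => u l * v l ^ (e a : ℕ)).det ≠ 0 := by
  have h1 : (Matrix.of fun a l : Λ => u l * v l ^ (e a : ℕ)).det
      = (∏ l : Λ, u l) * (Matrix.of fun a l : Λ => v l ^ (e a : ℕ)).det := by
    rw [← Matrix.det_mul_row]
    rfl
  rw [h1]
  refine mul_ne_zero (Finset.prod_ne_zero_iff.mpr fun l _ => hu l) ?_
  have h2 : (Matrix.of fun a l : Λ => v l ^ (e a : ℕ)).det
      = (Matrix.vandermonde (fun j : Fin m => v (e.symm j))).det := by
    rw [← Matrix.det_transpose (Matrix.vandermonde _),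
      ← Matrix.det_submatrix_equiv_self e (Matrix.transpose _)]
    congr 1
    ext a l
    simp [Matrix.vandermonde_apply]
  rw [h2, Matrix.det_vandermonde_ne_zero_iff]
  exact hv.comp e.symm.injective

/-- Task Z (zero estimate). -/
theorem zero_estimate [CharZero F] {K L R₂ S₂ i q : ℕ} {β κ : F} (hβ : β ≠ 0)
    (hβ1 : Function.Injective fun n : ℕ => β ^ n) (hκ : κ ≠ 0)
    (hiq : Nat.Coprime i q) (hRq : R₂ ≤ q) (hn : (K - 1) * L < R₂ * S₂)
    (c : Fin K → Fin L → F)
    (h : ∀ r s : ℕ, r < R₂ + L - 1 → s < S₂ → ∑ k : Fin K, ∑ l : Fin L,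
      c k l * (Nat.choose (r * i + s * q) k : F) * (β ^ r * κ ^ s) ^ (l : ℕ) = 0) :
    ∀ k l, c k l = 0 := by
  classical
  set P : Fin L → F[X] := fun l =>
    ∑ k : Fin K, C (c k l / (Nat.factorial k : F)) * descPochhammer F (k : ℕ) with hP
  have hev : ∀ l (n : ℕ), (P l).eval (n : F) = ∑ k : Fin K, c k l * (Nat.choose n k : F) := by
    intro l n
    simp only [hP, eval_finsetSum, eval_mul, eval_C, descPochhammer_eval_eq_descFactorial]
    refine Finset.sum_congr rfl fun k _ => ?_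
    rw [Nat.descFactorial_eq_factorial_mul_choose]
    push_cast
    have : (Nat.factorial k : F) ≠ 0 := by exact_mod_cast Nat.factorial_ne_zero _
    field_simp
  have hdeg : ∀ l, (P l).natDegree ≤ K - 1 := by
    intro l
    refine natDegree_sum_le_of_forall_le _ _ fun k _ => ?_
    refine (natDegree_C_mul_le _ _).trans ?_
    rw [descPochhammer_natDegree]
    omega
  have hzero : ∀ l, P l = 0 → ∀ k, c k l = 0 := by
    intro l hl
    have h0 : ∀ n : ℕ, ∑ k : Fin K, c k l * (Nat.choose n k : F) = 0 := fun n => by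
      rw [← hev, hl, eval_zero]
    have : ∀ n : ℕ, ∀ hn : n < K, c ⟨n, hn⟩ l = 0 := by
      intro n
      induction n using Nat.strong_induction_on with
      | _ n ih =>
        intro hn
        have h1 := h0 n
        rw [Finset.sum_eq_single ⟨n, hn⟩] at h1
        · simpa using h1
        · intro b _ hb
          rcases lt_trichotomy (b : ℕ) n with h2 | h2 | h2
          · rw [show b = ⟨(b : ℕ), b.2⟩ from rfl, ih b h2 b.2, zero_mul]
          · exact absurd (Fin.ext h2) hb
          · rw [Nat.choose_eq_zero_of_lt h2]; simp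
        · simp
    exact fun k => this k k.2
  by_contra hcon
  simp only [not_forall] at hcon
  obtain ⟨k0, l0, hc0⟩ := hcon
  have hl0 : P l0 ≠ 0 := fun hh => hc0 (hzero l0 hh k0)
  let Λ := {l : Fin L // P l ≠ 0}
  let e : Λ ≃ Fin (Fintype.card Λ) := Fintype.equivFin Λ
  have hcard : Fintype.card Λ ≤ L := by
    have := Fintype.card_subtype_le (fun l : Fin L => P l ≠ 0)
    rwa [Fintype.card_fin] at this
  have hβ0 : ∀ n : ℕ, β ^ n ≠ 0 := fun n => pow_ne_zero n hβ
  let M : Matrix Λ Λ F[X] := Matrix.of fun a l =>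
    C (β ^ ((e a : ℕ) * (l.1 : ℕ))) * (P l.1).comp (X + C (((e a : ℕ) * i : ℕ) : F))
  have hM : ∀ a l, M a l = C (β ^ ((e a : ℕ) * (l.1 : ℕ)))
    * (P l.1).comp (X + C (((e a : ℕ) * i : ℕ) : F)) := fun a l => rfl
  have hMdeg : ∀ a l, (M a l).natDegree = (P l.1).natDegree := by
    intro a l
    rw [hM, natDegree_C_mul (hβ0 _), natDegree_comp, natDegree_X_add_C, mul_one]
  have hMlead : ∀ a l, (M a l).leadingCoeff
      = (P l.1).leadingCoeff * (β ^ (l.1 : ℕ)) ^ (e a : ℕ) := by
    intro a l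
    rw [hM, leadingCoeff_mul, leadingCoeff_C, leadingCoeff_comp (by rw [natDegree_X_add_C]; simp),
      leadingCoeff_X_add_C, one_pow, mul_one, ← pow_mul, mul_comm, mul_comm (l.1 : ℕ)]
  have hM0 : ∀ a l, M a l ≠ 0 := by
    intro a l h1
    have h2 := hMlead a l
    rw [h1, leadingCoeff_zero] at h2
    exact mul_ne_zero (leadingCoeff_ne_zero.mpr l.2) (pow_ne_zero _ (hβ0 _)) h2.symm
  obtain ⟨hcoef, hndeg⟩ := det_coeff M (fun l => (P l.1).natDegree)
    (Matrix.of fun a l : Λ => (P l.1).leadingCoeff * (β ^ (l.1 : ℕ)) ^ (e a : ℕ)) hMdeg hM0 hMlead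
  have hdet0 : M.det ≠ 0 := by
    intro h1
    rw [h1, coeff_zero] at hcoef
    refine vand_ne e (fun l : Λ => β ^ (l.1 : ℕ)) ?_ (fun l => (P l.1).leadingCoeff)
      (fun l => leadingCoeff_ne_zero.mpr l.2) hcoef.symm
    intro x y hxy
    exact Subtype.ext (Fin.ext (hβ1 hxy))
  have hDle : ∑ l : Λ, (P l.1).natDegree ≤ (K - 1) * L := by
    calc ∑ l : Λ, (P l.1).natDegree ≤ ∑ _l : Λ, (K - 1) := Finset.sum_le_sum fun l _ => hdeg _
      _ = Fintype.card Λ * (K - 1) := by simp
      _ ≤ L * (K - 1) := Nat.mul_le_mul_right _ hcard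
      _ = (K - 1) * L := mul_comm _ _
  have hq0 : 0 < q := by
    rcases Nat.eq_zero_or_pos q with h1 | h1
    · subst h1
      have : R₂ = 0 := by omega
      subst this
      simp at hn
    · exact h1
  refine hdet0 (eq_zero_of_natDegree_lt_card_of_eval_eq_zero M.det
    (f := fun rs : Fin R₂ × Fin S₂ => (((rs.1 : ℕ) * i + (rs.2 : ℕ) * q : ℕ) : F)) ?_ ?_ ?_)
  · rintro ⟨r, s⟩ ⟨r', s'⟩ hrs
    have h1 : (r : ℕ) * i + (s : ℕ) * q = (r' : ℕ) * i + (s' : ℕ) * q := by
      simpa only [Nat.cast_inj] using hrs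
    have h2 : (r : ℕ) * i ≡ (r' : ℕ) * i [MOD q] := by
      have : (r : ℕ) * i + (s : ℕ) * q ≡ (r' : ℕ) * i + (s' : ℕ) * q [MOD q] := by rw [h1]
      simpa [Nat.ModEq] using this
    have h3 : (r : ℕ) ≡ (r' : ℕ) [MOD q] :=
      Nat.ModEq.cancel_right_of_coprime (Nat.coprime_iff_gcd_eq_one.mp hiq.symm) h2
    have h4 : (r : ℕ) = (r' : ℕ) :=
      Nat.ModEq.eq_of_lt_of_lt h3 (r.2.trans_le hRq) (r'.2.trans_le hRq)
    have h5 : (s : ℕ) = (s' : ℕ) := by
      rw [h4] at h1
      exact Nat.eq_of_mul_eq_mul_right hq0 (by omega)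
    exact Prod.ext (Fin.ext h4) (Fin.ext h5)
  · rintro ⟨r, s⟩
    simp only
    set X0 : ℕ := (r : ℕ) * i + (s : ℕ) * q with hX0
    have h1 : (M.det).eval (X0 : F) = ((evalRingHom (X0 : F)).mapMatrix M).det := by
      rw [← RingHom.map_det]; rfl
    rw [h1]
    rw [← Matrix.exists_mulVec_eq_zero_iff]
    refine ⟨fun l : Λ => (β ^ (r : ℕ) * κ ^ (s : ℕ)) ^ (l.1 : ℕ), ?_, ?_⟩
    · intro h2
      have h3 := congrFun h2 ⟨l0, hl0⟩
      exact (pow_ne_zero _ (mul_ne_zero (pow_ne_zero _ hβ) (pow_ne_zero _ hκ))) h3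
    · ext a
      have ha : (e a : ℕ) < L := (e a).2.trans_le hcard
      have h2 := h ((r : ℕ) + (e a : ℕ)) s (by have := r.2; omega) s.2
      rw [Finset.sum_comm] at h2
      have h3 : ∀ l : Fin L, ∑ k : Fin K, c k l * (Nat.choose (((r : ℕ) + (e a : ℕ)) * i
          + (s : ℕ) * q) k : F) * (β ^ ((r : ℕ) + (e a : ℕ)) * κ ^ (s : ℕ)) ^ (l : ℕ)
          = (P l).eval ((X0 : F) + (((e a : ℕ) * i : ℕ) : F))
            * (β ^ ((r : ℕ) + (e a : ℕ)) * κ ^ (s : ℕ)) ^ (l : ℕ) := by
        intro l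
        have h4 : ((X0 : F) + (((e a : ℕ) * i : ℕ) : F))
            = ((((r : ℕ) + (e a : ℕ)) * i + (s : ℕ) * q : ℕ) : F) := by
          rw [hX0]; push_cast; ring
        rw [h4, hev, Finset.sum_mul]
      rw [Finset.sum_congr rfl fun l _ => h3 l] at h2
      have h5 : ∑ l : Λ, (P l.1).eval ((X0 : F) + (((e a : ℕ) * i : ℕ) : F))
            * (β ^ ((r : ℕ) + (e a : ℕ)) * κ ^ (s : ℕ)) ^ (l.1 : ℕ) = 0 := by
        rw [← h2]
        rw [← Finset.sum_subtype (Finset.univ.filter fun l => P l ≠ 0) (by simp)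
          (fun l : Fin L => (P l).eval ((X0 : F) + (((e a : ℕ) * i : ℕ) : F))
            * (β ^ ((r : ℕ) + (e a : ℕ)) * κ ^ (s : ℕ)) ^ (l : ℕ))]
        refine Finset.sum_subset (Finset.subset_univ _) ?_
        intro l _ hl
        have : P l = 0 := by simpa using hl
        rw [this, eval_zero, zero_mul]
      simp only [Matrix.mulVec, dotProduct, RingHom.mapMatrix_apply, Matrix.map_apply,
        coe_evalRingHom, Pi.zero_apply, hM, eval_mul, eval_C, eval_comp, eval_add, eval_X]
      rw [← h5]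
      refine Finset.sum_congr rfl fun l _ => ?_
      rw [pow_add, mul_pow (β ^ (r : ℕ) * β ^ (e a : ℕ)), mul_pow (β ^ (r : ℕ)) (κ ^ (s : ℕ)),
        mul_pow (β ^ (r : ℕ)) (β ^ (e a : ℕ)), ← pow_mul β (e a : ℕ)]
      ring
  · simp only [Fintype.card_prod, Fintype.card_fin]
    omega


/-- If `M` acts injectively, some rows of `M` form an invertible square matrix. -/
theorem exists_rows {m : Type} [Fintype m] {n : ℕ} (M : Matrix m (Fin n) F)
    (hM : Function.Injective M.mulVec) :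
    ∃ f : Fin n → m, (M.submatrix f id).det ≠ 0 := by
  classical
  have hcol : LinearIndependent F M.col := Matrix.mulVec_injective_iff.mp hM
  have hrank : M.rank = n := by
    have h1 : LinearIndependent F M.transpose.row := hcol
    have h2 := h1.rank_matrix
    rw [Matrix.rank_transpose, Fintype.card_fin] at h2
    exact h2
  have hspan : Submodule.span F (Set.range M.row) = ⊤ := by
    apply Submodule.eq_top_of_finrank_eq
    rw [← Matrix.rank_eq_finrank_span_row, hrank]
    simp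
  obtain ⟨κ, a, ha, hsp, hli⟩ := exists_linearIndependent' F M.row
  have : Finite κ := Finite.of_injective a ha
  let _ : Fintype κ := Fintype.ofFinite κ
  have hcard : Fintype.card κ = n := by
    have h1 := finrank_span_eq_card hli
    rw [hsp, hspan, finrank_top] at h1
    rw [← h1]
    simp
  let e : κ ≃ Fin n := Fintype.equivFinOfCardEq hcard
  refine ⟨fun j => a (e.symm j), ?_⟩
  have hli2 : LinearIndependent F (M.submatrix (fun j => a (e.symm j)) id).row :=
    hli.comp _ e.symm.injective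
  rw [Matrix.linearIndependent_rows_iff_isUnit, Matrix.isUnit_iff_isUnit_det] at hli2
  exact hli2.ne_zero

theorem det_ex_core [CharZero F] (N L R₂ S₂ q : ℕ) (β κ : F) (hβ : β ≠ 0)
    (hβ1 : Function.Injective fun n : ℕ => β ^ n) (hκ : κ ≠ 0) (hRq : R₂ ≤ q)
    (hKL : (N - 1) * L < R₂ * S₂) :
    ∃ r s : Fin (N * L) → ℕ, (∀ a, r a < R₂ + L - 1) ∧ (∀ a, s a < S₂) ∧
      (Matrix.of fun a c : Fin (N * L) =>
        (Nat.choose (r a + s a * q) ((finProdFinEquiv.symm c).1 : ℕ) : F) *
          (β ^ r a * κ ^ s a) ^ ((finProdFinEquiv.symm c).2 : ℕ)).det ≠ 0 := by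
  let e : Fin N × Fin L ≃ Fin (N * L) := finProdFinEquiv
  let M : Matrix (Fin (R₂ + L - 1) × Fin S₂) (Fin (N * L)) F := Matrix.of fun ρ c =>
    (Nat.choose (ρ.1 * 1 + ρ.2 * q) (e.symm c).1 : F) *
      (β ^ (ρ.1 : ℕ) * κ ^ (ρ.2 : ℕ)) ^ ((e.symm c).2 : ℕ)
  have hinj : Function.Injective M.mulVec := by
    have hzero : ∀ d : Fin (N * L) → F, M.mulVec d = 0 → d = 0 := by
      intro d hd
      have hz := zero_estimate (K := N) (L := L) (i := 1) (q := q) hβ hβ1 hκ
        (Nat.coprime_one_left q) hRq hKL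
        (fun k l => d (e (k, l))) (by
          intro r s hr hs
          have h1 := congrFun hd (⟨r, hr⟩, ⟨s, hs⟩)
          simp only [Matrix.mulVec, dotProduct, Pi.zero_apply] at h1
          rw [← h1, ← Fintype.sum_prod_type']
          apply Fintype.sum_equiv e
          intro c
          simp only [M, Matrix.of_apply, Equiv.symm_apply_apply]
          ring)
      funext c
      have h2 := hz (e.symm c).1 (e.symm c).2
      simpa using h2
    intro u v huv
    have h1 : M.mulVec (u - v) = 0 := by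
      rw [Matrix.mulVec_sub, huv, sub_self]
    exact sub_eq_zero.mp (hzero _ h1)
  obtain ⟨f, hf⟩ := exists_rows M hinj
  refine ⟨fun a => (f a).1, fun a => (f a).2, fun a => (f a).1.2, fun a => (f a).2.2, ?_⟩
  intro h0
  apply hf
  rw [← h0]
  congr 1
  ext a c
  simp only [M, Matrix.of_apply, Matrix.submatrix_apply, id, mul_one]
  rfl

end Pool.Agent.Y228.AK
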