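import Pool.Agent.Y228.AK.Sz

/-! AK-J1: the size of the interpolation determinant at an archimedean place. -/

set_option autoImplicit false
set_option linter.all false

namespace Pool.Agent.Y228.AK

open Finset

variable {F : Type} [Field F]

theorem det_row_bound {v : AbsoluteValue F ℝ} {n : ℕ} (A : Matrix (Fin n) (Fin n) F) (B : Fin n → ℝ)
    (h : ∀ i j, v (A i j) ≤ B i) : v A.det ≤ n.factorial * ∏ i, B i := by
  rw [Matrix.det_apply]
  refine (v.sum_le _ _).trans ?_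
  have h1 : ∀ σ ∈ (Finset.univ : Finset (Equiv.Perm (Fin n))),
      v (Equiv.Perm.sign σ • ∏ i, A (σ i) i) ≤ ∏ i, B i := by
    intro σ _
    rw [Units.smul_def, zsmul_eq_mul, map_mul]
    have hs : v ((Equiv.Perm.sign σ : ℤ) : F) = 1 := by
      rcases Int.units_eq_one_or (Equiv.Perm.sign σ) with h | h <;> rw [h] <;> simp
    rw [hs, one_mul, map_prod]
    calc ∏ i, v (A (σ i) i) ≤ ∏ i, B (σ i) :=
          Finset.prod_le_prod (fun i _ => v.nonneg _) fun i _ => h _ _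
      _ = ∏ i, B i := Equiv.prod_comp σ B
  refine (Finset.sum_le_sum h1).trans ?_
  rw [Finset.sum_const, Finset.card_univ, Fintype.card_perm, Fintype.card_fin, nsmul_eq_mul]

theorem geom8 (M : ℕ) : ∑ j ∈ range M, (1 / 8 : ℝ) ^ j ≤ 8 / 7 := by
  rw [geom_sum_eq (by norm_num)]
  have : (0 : ℝ) ≤ (1 / 8) ^ M := by positivity
  have e : ((1 / 8 : ℝ) ^ M - 1) / (1 / 8 - 1) = 8 / 7 * (1 - (1 / 8) ^ M) := by ring
  rw [e]
  nlinarith

theorem geom8' (M k : ℕ) : ∑ m ∈ range M, (if k ≤ m then (1 / 8 : ℝ) ^ (m - k) else 0) ≤ 8 / 7 := by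
  rw [← Finset.sum_filter]
  have h1 : (range M).filter (fun m => k ≤ m) = Ico k M := by
    ext m
    simp only [mem_filter, mem_range, mem_Ico]
    tauto
  rw [h1, Finset.sum_Ico_eq_sum_range]
  refine le_trans (le_of_eq (Finset.sum_congr rfl fun m _ => ?_)) (geom8 (M - k))
  congr 1
  omega

/-- the weights -/
noncomputable def ps {n : ℕ} (k : Fin n → ℕ) (M : ℕ) (p : Fin M × Fin M) (c : Fin n) : ℝ :=
  (if k c ≤ (p.1 : ℕ) then (1 / 8 : ℝ) ^ ((p.1 : ℕ) - k c) else 0) * (1 / 8) ^ (p.2 : ℕ)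

theorem ps_nonneg {n : ℕ} (k : Fin n → ℕ) (M : ℕ) (p : Fin M × Fin M) (c : Fin n) :
    0 ≤ ps k M p c := by
  unfold ps
  split_ifs <;> positivity

theorem ps_sum {n : ℕ} (k : Fin n → ℕ) (M : ℕ) :
    ∑ f : Fin n → Fin M × Fin M, ∏ c, ps k M (f c) c ≤ 2 ^ n := by
  have h1 : ∑ f : Fin n → Fin M × Fin M, ∏ c, ps k M (f c) c = ∏ c, ∑ p : Fin M × Fin M, ps k M p c := by
    rw [Finset.prod_univ_sum, Fintype.piFinset_univ]
  rw [h1]
  have h2 : ∀ c, ∑ p : Fin M × Fin M, ps k M p c ≤ 2 := by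
    intro c
    rw [Fintype.sum_prod_type]
    unfold ps
    simp only
    have e : ∑ x : Fin M, ∑ y : Fin M, (if k c ≤ (x : ℕ) then (1 / 8 : ℝ) ^ ((x : ℕ) - k c) else 0) *
        (1 / 8) ^ (y : ℕ) = (∑ x ∈ range M, if k c ≤ x then (1 / 8 : ℝ) ^ (x - k c) else 0) *
        ∑ y ∈ range M, (1 / 8 : ℝ) ^ y := by
      rw [Finset.sum_mul_sum, Finset.sum_range]
      refine Finset.sum_congr rfl fun x _ => ?_
      rw [Finset.sum_range]
    rw [e]
    have h3 := geom8' M (k c)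
    have h4 := geom8 M
    have h5 : (0 : ℝ) ≤ ∑ y ∈ range M, (1 / 8 : ℝ) ^ y := Finset.sum_nonneg fun _ _ => by positivity
    calc _ ≤ (8 / 7 : ℝ) * (8 / 7) := mul_le_mul h3 h4 h5 (by norm_num)
      _ ≤ 2 := by norm_num
  calc ∏ c, ∑ p : Fin M × Fin M, ps k M p c ≤ ∏ _c : Fin n, (2 : ℝ) :=
        Finset.prod_le_prod (fun c _ => Finset.sum_nonneg fun p _ => ps_nonneg k M p c) fun c _ => h2 c
    _ = 2 ^ n := by rw [Finset.prod_const, Finset.card_univ, Fintype.card_fin]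

section inf

variable {v : AbsoluteValue F ℝ}

theorem pow_sub_one_le {y : F} {δ : ℝ} {l L : ℕ} (hδ : v (y - 1) ≤ δ) (hl : l ≤ L)
    (hL : L * δ ≤ 1 / 2) : v (y ^ l) ≤ 2 ∧ v (y ^ l - 1) ≤ 2 * L * δ := by
  have hδ0 : 0 ≤ δ := (v.nonneg _).trans hδ
  have hy : v y ≤ 1 + δ := by
    have h := v.add_le (y - 1) 1
    rw [sub_add_cancel, map_one] at h
    linarith
  have hp : ∀ i, i ≤ L → v y ^ i ≤ 2 := by
    intro i hi
    calc v y ^ i ≤ (1 + δ) ^ i := pow_le_pow_left₀ (v.nonneg _) hy _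
      _ ≤ (Real.exp δ) ^ i := pow_le_pow_left₀ (by linarith) (by linarith [Real.add_one_le_exp δ]) _
      _ = Real.exp (i * δ) := by rw [← Real.exp_nat_mul]
      _ ≤ Real.exp (1 / 2) := by
          apply Real.exp_le_exp.2
          have : (i : ℝ) * δ ≤ L * δ := by gcongr
          linarith
      _ ≤ 2 := by
          have h1 : Real.exp (1 / 2) ^ 2 = Real.exp 1 := by rw [← Real.exp_nat_mul]; norm_num
          have h2 := Real.exp_one_lt_d9
          nlinarith [Real.exp_pos (1 / 2 : ℝ)]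
  refine ⟨by rw [map_pow]; exact hp l hl, ?_⟩
  rw [← geom_sum_mul, map_mul]
  have h1 : v (∑ i ∈ range l, y ^ i) ≤ 2 * L := by
    refine (v.sum_le _ _).trans ?_
    calc ∑ i ∈ range l, v (y ^ i) ≤ ∑ i ∈ range l, (2 : ℝ) :=
          Finset.sum_le_sum fun i hi => by
            rw [map_pow]; exact hp i (by have := mem_range.1 hi; omega)
      _ = l * 2 := by rw [Finset.sum_const, Finset.card_range, nsmul_eq_mul]
      _ ≤ 2 * L := by
          have : (l : ℝ) ≤ L := by exact_mod_cast hl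
          linarith
  exact mul_le_mul h1 hδ (v.nonneg _) (by positivity)

theorem choose_le_real {m k : ℕ} {Z : ℝ} (hZ : (m : ℝ) ≤ Z) : ((m.choose k : ℕ) : ℝ) ≤ Z ^ k := by
  calc ((m.choose k : ℕ) : ℝ) ≤ (m : ℝ) ^ k := by exact_mod_cast Nat.choose_le_pow m k
    _ ≤ Z ^ k := pow_le_pow_left₀ (by positivity) hZ _

/-- one factor -/
theorem factor_bound (hv : ∀ m : ℕ, v (m : F) = m) {n N L Y : ℕ} {β ω : F} {g Z : ℝ} (hg : 8 ≤ g)
    (hZ : 1 ≤ Z) (hLZ : 8 * L * Z ≤ Real.exp (g / 4)) (hY : 1 ≤ Y)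
    (k l : Fin n → ℕ) (hk : ∀ c, k c < N) (M : ℕ) (p : Fin M × Fin M) (c : Fin n)
    (hb1 : v (β ^ l c) ≤ 2) (hb2 : v (β ^ l c - 1) ≤ 2 * L * Real.exp (-g))
    (ho : v (ω ^ l c - 1) ≤ 4 * L * Real.exp (-(Y * g))) :
    v (cf β ω k l M p c) * (Z ^ (p.1 : ℕ) * Z ^ (p.2 : ℕ)) ≤
      (4 * Z) ^ N * Real.exp (-(g / 2 * ((((p.1 : ℕ) - k c) + Y * (p.2 : ℕ) : ℕ) : ℝ))) *
        ps k M p c := by
  by_cases hkp : k c ≤ (p.1 : ℕ)
  swap
  · have h0 : cf β ω k l M p c = 0 := by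
      unfold cf
      rw [Nat.choose_eq_zero_of_lt (not_le.1 hkp)]
      simp
    rw [h0, map_zero, zero_mul]
    have := ps_nonneg k M p c
    positivity
  obtain ⟨m, hm⟩ : ∃ m, (p.1 : ℕ) = k c + m := ⟨_, (Nat.add_sub_cancel' hkp).symm⟩
  obtain ⟨j, hj⟩ : ∃ j, (p.2 : ℕ) = j := ⟨_, rfl⟩
  have hZ0 : (0 : ℝ) < Z := by linarith
  have hps : ps k M p c = (1 / 8) ^ m * (1 / 8) ^ j := by
    unfold ps
    rw [if_pos hkp, hm, hj, Nat.add_sub_cancel_left]
  have hcf : v (cf β ω k l M p c) ≤ 2 ^ (k c + m) * 2 ^ (k c) * (2 * L * Real.exp (-g)) ^ m *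
      (4 * L * Real.exp (-(Y * g))) ^ j := by
    unfold cf
    rw [map_mul, map_mul, map_mul, map_pow v (β ^ l c), map_pow v (β ^ l c - 1),
      map_pow v (ω ^ l c - 1), hm, hj, Nat.add_sub_cancel_left, hv]
    have h1 : (((k c + m).choose (k c) : ℕ) : ℝ) ≤ 2 ^ (k c + m) := by
      exact_mod_cast Nat.choose_le_two_pow _ _
    gcongr
  have e1 : Real.exp (-(2 : ℝ)) ≤ 1 / 4 := by
    rw [Real.exp_neg]
    have h2 : (4 : ℝ) ≤ Real.exp 2 := by
      have h3 := Real.add_one_le_exp (1 : ℝ)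
      have h4 : Real.exp 2 = Real.exp 1 * Real.exp 1 := by rw [← Real.exp_add]; norm_num
      nlinarith
    rw [one_div]
    exact inv_anti₀ (by norm_num) h2
  -- the two ratios
  have hr1 : 2 * Z * (2 * L * Real.exp (-g)) ≤ 1 / 8 * Real.exp (-(g / 2)) := by
    have h1 : 2 * Z * (2 * L * Real.exp (-g)) = 1 / 2 * (8 * L * Z) * Real.exp (-g) := by ring
    rw [h1]
    calc 1 / 2 * (8 * L * Z) * Real.exp (-g) ≤ 1 / 2 * Real.exp (g / 4) * Real.exp (-g) := by gcongr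
      _ = 1 / 2 * Real.exp (-(g / 4)) * Real.exp (-(g / 2)) := by
          rw [mul_assoc, ← Real.exp_add, mul_assoc, ← Real.exp_add]
          congr 2
          ring
      _ ≤ 1 / 2 * (1 / 4) * Real.exp (-(g / 2)) := by
          have h2 : Real.exp (-(g / 4)) ≤ 1 / 4 := (Real.exp_le_exp.2 (by linarith)).trans e1
          gcongr
      _ = _ := by ring
  have hYr : (1 : ℝ) ≤ Y := by exact_mod_cast hY
  have hr2 : Z * (4 * L * Real.exp (-(Y * g))) ≤ 1 / 8 * Real.exp (-(g / 2 * Y)) := by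
    have h1 : Z * (4 * L * Real.exp (-(Y * g))) = 1 / 2 * (8 * L * Z) * Real.exp (-(Y * g)) := by ring
    rw [h1]
    calc 1 / 2 * (8 * L * Z) * Real.exp (-(Y * g)) ≤
          1 / 2 * Real.exp (g / 4) * Real.exp (-(Y * g)) := by gcongr
      _ = 1 / 2 * Real.exp (g / 4 - g / 2 * Y) * Real.exp (-(g / 2 * Y)) := by
          rw [mul_assoc, ← Real.exp_add, mul_assoc, ← Real.exp_add]
          congr 2
          ring
      _ ≤ 1 / 2 * (1 / 4) * Real.exp (-(g / 2 * Y)) := by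
          have h2 : Real.exp (g / 4 - g / 2 * Y) ≤ 1 / 4 :=
            (Real.exp_le_exp.2 (by nlinarith)).trans e1
          gcongr
      _ = _ := by ring
  have hr1' : (0 : ℝ) ≤ 2 * Z * (2 * L * Real.exp (-g)) := by positivity
  have hr2' : (0 : ℝ) ≤ Z * (4 * L * Real.exp (-(Y * g))) := by positivity
  calc v (cf β ω k l M p c) * (Z ^ (p.1 : ℕ) * Z ^ (p.2 : ℕ))
      ≤ (2 ^ (k c + m) * 2 ^ (k c) * (2 * L * Real.exp (-g)) ^ m *
          (4 * L * Real.exp (-(Y * g))) ^ j) * (Z ^ (p.1 : ℕ) * Z ^ (p.2 : ℕ)) := by gcongr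
    _ = (4 * Z) ^ (k c) * (2 * Z * (2 * L * Real.exp (-g))) ^ m *
          (Z * (4 * L * Real.exp (-(Y * g)))) ^ j := by
        rw [hm, hj]
        have e4 : (4 : ℝ) ^ (k c) = 2 ^ (k c) * 2 ^ (k c) := by rw [← mul_pow]; norm_num
        simp only [mul_pow, pow_add, e4]
        ring
    _ ≤ (4 * Z) ^ N * (1 / 8 * Real.exp (-(g / 2))) ^ m * (1 / 8 * Real.exp (-(g / 2 * Y))) ^ j := by
        have h1 : (4 * Z) ^ (k c) ≤ (4 * Z) ^ N := pow_le_pow_right₀ (by linarith) (hk c).le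
        gcongr
    _ = (4 * Z) ^ N * Real.exp (-(g / 2 * ((((p.1 : ℕ) - k c) + Y * (p.2 : ℕ) : ℕ) : ℝ))) *
        ps k M p c := by
        rw [hps, hm, hj, Nat.add_sub_cancel_left, mul_pow (1 / 8 : ℝ) (Real.exp (-(g / 2))),
          mul_pow (1 / 8 : ℝ) (Real.exp (-(g / 2 * Y))), ← Real.exp_nat_mul,
          ← Real.exp_nat_mul]
        have e5 : Real.exp (-(g / 2 * ((m + Y * j : ℕ) : ℝ))) =
            Real.exp (m * -(g / 2)) * Real.exp (j * -(g / 2 * Y)) := by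
          rw [← Real.exp_add]
          congr 1
          push_cast
          ring
        rw [e5]
        ring

theorem det_inf_core (hv : ∀ m : ℕ, v (m : F) = m) (n N L Y q : ℕ) (β κ : F) (g Z : ℝ)
    (hg : 8 ≤ g) (hZ : 1 ≤ Z) (hLZ : 8 * L * Z ≤ Real.exp (g / 4))
    (hβ : v (β - 1) ≤ Real.exp (-g)) (hω : v (β ^ q * κ⁻¹ - 1) ≤ Real.exp (-(Y * g)))
    (hnY : n ≤ Y) (hY : 1 ≤ Y) (hκ : κ ≠ 0) (r s k l : Fin n → ℕ) (hk : ∀ c, k c < N)
    (hl : ∀ c, l c < L) (hz : ∀ a, ((r a + s a * q : ℕ) : ℝ) ≤ Z) (hs : ∀ a, (s a : ℝ) ≤ Z) :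
    v (Matrix.of fun a c : Fin n =>
      (Nat.choose (r a + s a * q) (k c) : F) * (β ^ r a * κ ^ s a) ^ (l c)).det ≤
      n.factorial * (8 * Z) ^ (n * N) *
        Real.exp (-(g / 2 * ((n * (n - 1) / 2 - n * N : ℕ) : ℝ))) := by
  rcases Nat.eq_zero_or_pos n with hn | hn
  · subst hn
    rw [Matrix.det_fin_zero, map_one]
    simp
  have hN : 1 ≤ N := by have := hk ⟨0, hn⟩; omega
  have hYr : (1 : ℝ) ≤ Y := by exact_mod_cast hY
  have hZ0 : (0 : ℝ) < Z := by linarith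
  have hL0 : (0 : ℝ) ≤ L := by positivity
  have heg : Real.exp (-g) ≤ 1 / 4 := by
    have h3 := Real.add_one_le_exp g
    rw [Real.exp_neg, one_div]
    exact inv_anti₀ (by norm_num) (by linarith)
  have heY : Real.exp (-(Y * g)) ≤ Real.exp (-g) := Real.exp_le_exp.2 (by nlinarith)
  have hL1 : (L : ℝ) * Real.exp (-g) ≤ 1 / 8 := by
    have h1 : 8 * (L : ℝ) ≤ Real.exp (g / 4) := by nlinarith
    have h2 : Real.exp (g / 4) * Real.exp (-g) ≤ 1 := by
      rw [← Real.exp_add]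
      exact Real.exp_le_one_iff.2 (by linarith)
    nlinarith [Real.exp_pos (-g)]
  have hβ0 : β ≠ 0 := by
    intro h
    rw [h, zero_sub, map_neg_eq_map, map_one] at hβ
    linarith
  set η := β ^ q * κ⁻¹ with hη
  have hη0 : η ≠ 0 := mul_ne_zero (pow_ne_zero _ hβ0) (inv_ne_zero hκ)
  have hη1 : 1 / 2 ≤ v η := by
    have h := v.add_le η (-(η - 1))
    rw [show η + -(η - 1) = 1 by ring, map_one, map_neg_eq_map] at h
    linarith
  have hω1 : v (η⁻¹) ≤ 2 := by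
    rw [map_inv₀]
    have := inv_anti₀ (by norm_num : (0 : ℝ) < 1 / 2) hη1
    norm_num at this ⊢
    exact this
  have hω2 : v (η⁻¹ - 1) ≤ 2 * Real.exp (-(Y * g)) := by
    have e : η⁻¹ - 1 = η⁻¹ * -(η - 1) := by field_simp; ring
    rw [e, map_mul, map_neg_eq_map]
    exact mul_le_mul hω1 hω (v.nonneg _) (by norm_num)
  have hb : ∀ c, v (β ^ l c) ≤ 2 ∧ v (β ^ l c - 1) ≤ 2 * L * Real.exp (-g) := fun c =>
    pow_sub_one_le hβ (hl c).le (by linarith)
  have ho : ∀ c, v (η⁻¹ ^ l c - 1) ≤ 4 * L * Real.exp (-(Y * g)) := fun c => by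
    have h := (pow_sub_one_le (L := L) hω2 (hl c).le (by nlinarith)).2
    calc _ ≤ _ := h
      _ = _ := by ring
  obtain ⟨M, hM⟩ := det_eq (q := q) (β := β) (κ := κ) (ω := η⁻¹) (by rw [hη]; field_simp) r s k l
  rw [hM]
  have hterm : ∀ f : Fin n → Fin M × Fin M, v ((∏ c, cf β η⁻¹ k l M (f c) c) *
      Matrix.det (Matrix.of fun c a => nu (fun a => r a + s a * q) s M a (f c))) ≤
      n.factorial * (4 * Z) ^ (n * N) *
        Real.exp (-(g / 2 * ((n * (n - 1) / 2 - n * N : ℕ) : ℝ))) * ∏ c, ps k M (f c) c := by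
    intro f
    have hps : 0 ≤ ∏ c, ps k M (f c) c := Finset.prod_nonneg fun c _ => ps_nonneg _ _ _ _
    by_cases hf : Function.Injective f
    swap
    · rw [det_noninj _ _ f hf, mul_zero, map_zero]
      positivity
    rw [map_mul]
    have hdet : v (Matrix.det (Matrix.of fun c a => nu (F := F) (fun a => r a + s a * q) s M a (f c))) ≤
        n.factorial * ∏ c, (Z ^ ((f c).1 : ℕ) * Z ^ ((f c).2 : ℕ)) := by
      refine det_row_bound _ _ fun i j => ?_
      rw [Matrix.of_apply]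
      unfold nu
      rw [map_mul, hv, hv]
      exact mul_le_mul (choose_le_real (hz j)) (choose_le_real (hs j)) (by positivity) (by positivity)
    calc v (∏ c, cf β η⁻¹ k l M (f c) c) * _ ≤
          v (∏ c, cf β η⁻¹ k l M (f c) c) *
            (n.factorial * ∏ c, (Z ^ ((f c).1 : ℕ) * Z ^ ((f c).2 : ℕ))) :=
          mul_le_mul_of_nonneg_left hdet (v.nonneg _)
      _ = n.factorial * ∏ c, (v (cf β η⁻¹ k l M (f c) c) *
            (Z ^ ((f c).1 : ℕ) * Z ^ ((f c).2 : ℕ))) := by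
          rw [map_prod, Finset.prod_mul_distrib (f := fun c => v (cf β η⁻¹ k l M (f c) c))]
          ring
      _ ≤ n.factorial * ∏ c, ((4 * Z) ^ N *
            Real.exp (-(g / 2 * (((((f c).1 : ℕ) - k c) + Y * ((f c).2 : ℕ) : ℕ) : ℝ))) *
            ps k M (f c) c) := by
          refine mul_le_mul_of_nonneg_left (Finset.prod_le_prod (fun c _ => by positivity)
            fun c _ => ?_) (by positivity)
          exact factor_bound hv hg hZ hLZ hY k l hk M (f c) c (hb c).1 (hb c).2 (ho c)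
      _ = n.factorial * ((4 * Z) ^ (n * N) *
            Real.exp (-(g / 2 * ((∑ c, ((((f c).1 : ℕ) - k c) + Y * ((f c).2 : ℕ)) : ℕ) : ℝ))) *
            ∏ c, ps k M (f c) c) := by
          rw [Finset.prod_mul_distrib, Finset.prod_mul_distrib, Finset.prod_const,
            Finset.card_univ, Fintype.card_fin, ← pow_mul, mul_comm N n, ← Real.exp_sum]
          congr 4
          push_cast
          rw [Finset.mul_sum, ← Finset.sum_neg_distrib]
      _ ≤ n.factorial * ((4 * Z) ^ (n * N) *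
            Real.exp (-(g / 2 * ((n * (n - 1) / 2 - n * N : ℕ) : ℝ))) *
            ∏ c, ps k M (f c) c) := by
          have hw : ((n * (n - 1) / 2 - n * N : ℕ) : ℝ) ≤
              ((∑ c, ((((f c).1 : ℕ) - k c) + Y * ((f c).2 : ℕ)) : ℕ) : ℝ) := by
            exact_mod_cast weight' hnY f hf k hk
          have he : Real.exp (-(g / 2 * ((∑ c, ((((f c).1 : ℕ) - k c) + Y * ((f c).2 : ℕ)) : ℕ) : ℝ))) ≤
              Real.exp (-(g / 2 * ((n * (n - 1) / 2 - n * N : ℕ) : ℝ))) := by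
            apply Real.exp_le_exp.2
            have : g / 2 * ((n * (n - 1) / 2 - n * N : ℕ) : ℝ) ≤
                g / 2 * ((∑ c, ((((f c).1 : ℕ) - k c) + Y * ((f c).2 : ℕ)) : ℕ) : ℝ) :=
              mul_le_mul_of_nonneg_left hw (by linarith)
            linarith
          gcongr
      _ = _ := by ring
  refine (v.sum_le _ _).trans ((Finset.sum_le_sum fun f _ => hterm f).trans ?_)
  rw [← Finset.mul_sum]
  have h2 := ps_sum k M
  have h3 : (2 : ℝ) ^ n ≤ 2 ^ (n * N) :=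
    pow_le_pow_right₀ (by norm_num) (Nat.le_mul_of_pos_right n hN)
  calc _ ≤ n.factorial * (4 * Z) ^ (n * N) *
        Real.exp (-(g / 2 * ((n * (n - 1) / 2 - n * N : ℕ) : ℝ))) * 2 ^ (n * N) :=
        mul_le_mul_of_nonneg_left (h2.trans h3) (by positivity)
    _ = n.factorial * ((4 * Z) ^ (n * N) * 2 ^ (n * N)) *
        Real.exp (-(g / 2 * ((n * (n - 1) / 2 - n * N : ℕ) : ℝ))) := by ring
    _ = _ := by rw [← mul_pow]; ring_nf

end inf

end Pool.Agent.Y228.AK
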