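import Pool.Agent.Y728.AK.Def
import Pool.Agent.Y228.AK.Ex
import Pool.Agent.Y228.AK.In

/-! AK-J1: the interpolation determinant, generic field. -/

set_option autoImplicit false
set_option linter.all false

namespace Pool.Agent.Y228.AK

open Pool.Agent.Y728.AK

theorem det_ex (F : Type) [Field F] [CharZero F] : DetEx F :=
  fun N L R₂ S₂ q β κ hβ hβ1 hκ hRq hKL => det_ex_core N L R₂ S₂ q β κ hβ hβ1 hκ hRq hKL

theorem det_finT (F : Type) [Field F] : DetFin F :=
  fun v hv n N Y q β κ t h1 h2 h3 h4 h5 h6 r s k l hk =>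
    det_fin_core hv n N Y q β κ t h1 h2 h3 h4 h5 h6 r s k l hk

theorem det_infT (F : Type) [Field F] : DetInf F :=
  fun v hv n N L Y q β κ g Z h1 h2 h3 h4 h5 h6 h7 h8 r s k l hk hl hz hs =>
    det_inf_core hv n N L Y q β κ g Z h1 h2 h3 h4 h5 h6 h7 h8 r s k l hk hl hz hs

end Pool.Agent.Y228.AK
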