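import Mathlib
import Pool.Agent.H374R2.T.TaskI

/-! AK-J1: the size of the interpolation determinant at a place, generic field. -/

set_option autoImplicit false
set_option linter.all false

namespace Pool.Agent.Y228.AK

open Finset
open Pool.Agent.H374R2.T.TaskI (expand_choose expand_pow det_expand weight)

variable {F : Type} [Field F]

/-- the coefficients -/
def cf {n : ℕ} (β ω : F) (k l : Fin n → ℕ) (M : ℕ) (p : Fin M × Fin M) (c : Fin n) : F :=
  ((Nat.choose (p.1 : ℕ) (k c) : F) * (β ^ l c) ^ k c * (β ^ l c - 1) ^ ((p.1 : ℕ) - k c)) *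
    (ω ^ l c - 1) ^ (p.2 : ℕ)

/-- the numbers -/
def nu {n : ℕ} (z s : Fin n → ℕ) (M : ℕ) (a : Fin n) (p : Fin M × Fin M) : F :=
  (Nat.choose (z a) p.1 : F) * (Nat.choose (s a) p.2 : F)

theorem det_eq {n q : ℕ} {β κ ω : F} (hκ : κ = β ^ q * ω) (r s k l : Fin n → ℕ) :
    ∃ M : ℕ, (Matrix.of fun a c : Fin n =>
      (Nat.choose (r a + s a * q) (k c) : F) * (β ^ r a * κ ^ s a) ^ (l c)).det =
      ∑ f : Fin n → Fin M × Fin M, (∏ c, cf β ω k l M (f c) c) *
        Matrix.det (Matrix.of fun c a => nu (fun a => r a + s a * q) s M a (f c)) := by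
  classical
  refine ⟨(∑ a, ((r a + s a * q) + s a)) + 1, ?_⟩
  set M : ℕ := (∑ a, ((r a + s a * q) + s a)) + 1 with hM
  have hb : ∀ a, (r a + s a * q) + s a < M := fun a => by
    have := Finset.single_le_sum (f := fun a => (r a + s a * q) + s a) (fun a _ => Nat.zero_le _)
      (Finset.mem_univ a)
    rw [hM]
    exact Nat.lt_succ_of_le this
  rw [← det_expand]
  congr 1
  ext a c
  rw [Matrix.of_apply, Matrix.of_apply]
  have h1 : (β ^ r a * κ ^ s a) ^ l c = (β ^ l c) ^ (r a + s a * q) * (ω ^ l c) ^ s a := by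
    rw [hκ]
    simp only [mul_pow, ← pow_mul]
    rw [show l c * (r a + s a * q) = r a * l c + q * s a * l c by ring, pow_add,
      mul_comm (l c) (s a)]
    ring
  rw [h1, ← mul_assoc, expand_choose (β ^ l c) (r a + s a * q) (k c) M (by have := hb a; omega),
    expand_pow (ω ^ l c) (s a) M (by have := hb a; omega), Finset.sum_mul_sum,
    Fintype.sum_prod_type, Finset.sum_range]
  refine Finset.sum_congr rfl fun m _ => ?_
  rw [Finset.sum_range]
  refine Finset.sum_congr rfl fun j _ => ?_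
  unfold cf nu
  ring

theorem weight' {n Y N : ℕ} (hY : n ≤ Y) {M : ℕ} (f : Fin n → Fin M × Fin M)
    (hf : Function.Injective f) (k : Fin n → ℕ) (hk : ∀ c, k c < N) :
    n * (n - 1) / 2 - n * N ≤ ∑ c, ((((f c).1 : ℕ) - k c) + Y * ((f c).2 : ℕ)) := by
  have hinj : Function.Injective (fun c => (((f c).1 : ℕ), ((f c).2 : ℕ))) := by
    intro c c' h
    rw [Prod.mk.injEq] at h
    exact hf (Prod.ext (Fin.ext h.1) (Fin.ext h.2))
  have hw := weight hY _ hinj
  simp only at hw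
  have h1 : ∑ c, (((f c).1 : ℕ) + Y * ((f c).2 : ℕ)) ≤
      ∑ c, (((((f c).1 : ℕ) - k c) + Y * ((f c).2 : ℕ)) + N) := by
    refine Finset.sum_le_sum fun c _ => ?_
    have := hk c
    omega
  rw [Finset.sum_add_distrib (g := fun _ => N), Finset.sum_const, Finset.card_univ,
    Fintype.card_fin, smul_eq_mul] at h1
  omega

theorem det_noninj {n M : ℕ} (z s : Fin n → ℕ) (f : Fin n → Fin M × Fin M)
    (hf : ¬ Function.Injective f) :
    Matrix.det (Matrix.of fun c a => nu (F := F) z s M a (f c)) = 0 := by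
  rw [Function.not_injective_iff] at hf
  obtain ⟨c, c', h1, h2⟩ := hf
  rw [Matrix.det_zero_of_row_eq h2]
  ext a
  simp only [Matrix.of_apply, h1]

section fin

variable {v : AbsoluteValue F ℝ} (hv : ∀ a b, v (a + b) ≤ max (v a) (v b))

include hv

theorem na_sum {ι : Type*} (S : Finset ι) (f : ι → F) {B : ℝ} (hB : 0 ≤ B)
    (h : ∀ i ∈ S, v (f i) ≤ B) : v (∑ i ∈ S, f i) ≤ B := by
  classical
  induction S using Finset.induction_on with
  | empty => rw [Finset.sum_empty, map_zero]; exact hB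
  | insert i S hi ih =>
    rw [Finset.sum_insert hi]
    exact (hv _ _).trans (max_le (h i (Finset.mem_insert_self _ _))
      (ih fun j hj => h j (Finset.mem_insert_of_mem hj)))

theorem na_nat (m : ℕ) : v (m : F) ≤ 1 := by
  induction m with
  | zero => rw [Nat.cast_zero, map_zero]; exact zero_le_one
  | succ m ih => rw [Nat.cast_succ]; exact (hv _ _).trans (max_le ih (by rw [map_one]))

theorem na_one {y : F} (hy : v (y - 1) ≤ 1) : v y ≤ 1 := by
  have h := hv (y - 1) 1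
  rw [sub_add_cancel, map_one] at h
  exact h.trans (max_le hy le_rfl)

theorem na_pow {y : F} {B : ℝ} (hB : 0 ≤ B) (h1 : v y ≤ 1) (h : v (y - 1) ≤ B) (l : ℕ) :
    v (y ^ l - 1) ≤ B := by
  induction l with
  | zero => rw [pow_zero, sub_self, map_zero]; exact hB
  | succ l ih =>
    have e : y ^ (l + 1) - 1 = y ^ l * (y - 1) + (y ^ l - 1) := by ring
    rw [e]
    refine (hv _ _).trans (max_le ?_ ih)
    rw [map_mul, map_pow]
    calc v y ^ l * v (y - 1) ≤ 1 * B := by
          refine mul_le_mul (pow_le_one₀ (v.nonneg _) h1) h (v.nonneg _) zero_le_one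
      _ = B := one_mul _

theorem det_fin_core (n N Y q : ℕ) (β κ : F) (t : ℝ) (ht0 : 0 < t) (ht1 : t < 1)
    (hβ : v (β - 1) ≤ t) (hω : v (β ^ q * κ⁻¹ - 1) ≤ t ^ Y) (hY : n ≤ Y) (hκ : κ ≠ 0)
    (r s k l : Fin n → ℕ) (hk : ∀ c, k c < N) :
    v (Matrix.of fun a c : Fin n =>
      (Nat.choose (r a + s a * q) (k c) : F) * (β ^ r a * κ ^ s a) ^ (l c)).det ≤
      t ^ (n * (n - 1) / 2 - n * N) := by
  rcases Nat.eq_zero_or_pos n with hn | hn
  · subst hn
    rw [Matrix.det_fin_zero, map_one]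
    simp
  have hβ0 : β ≠ 0 := by
    intro h
    rw [h, zero_sub, map_neg_eq_map, map_one] at hβ
    exact absurd hβ (not_le.2 ht1)
  have hβ1 : v β ≤ 1 := na_one hv (hβ.trans ht1.le)
  have htY : t ^ Y < 1 := pow_lt_one₀ ht0.le ht1 (by omega)
  set η := β ^ q * κ⁻¹ with hη
  have hη0 : η ≠ 0 := mul_ne_zero (pow_ne_zero _ hβ0) (inv_ne_zero hκ)
  have hη1 : 1 ≤ v η := by
    have h := hv η (-(η - 1))
    rw [show η + -(η - 1) = 1 by ring, map_one, map_neg_eq_map] at h
    rcases le_max_iff.1 h with h | h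
    · exact h
    · exact absurd (h.trans hω) (not_le.2 htY)
  have hω1 : v (η⁻¹) ≤ 1 := by rw [map_inv₀]; exact inv_le_one_of_one_le₀ hη1
  have hω2 : v (η⁻¹ - 1) ≤ t ^ Y := by
    have e : η⁻¹ - 1 = η⁻¹ * -(η - 1) := by field_simp; ring
    rw [e, map_mul, map_neg_eq_map]
    calc v η⁻¹ * v (η - 1) ≤ 1 * t ^ Y := mul_le_mul hω1 hω (v.nonneg _) zero_le_one
      _ = _ := one_mul _
  obtain ⟨M, hM⟩ := det_eq (q := q) (β := β) (κ := κ) (ω := η⁻¹) (by rw [hη]; field_simp) r s k l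
  rw [hM]
  refine na_sum hv _ _ (pow_nonneg ht0.le _) fun f _ => ?_
  by_cases hf : Function.Injective f
  swap
  · rw [det_noninj _ _ f hf, mul_zero, map_zero]
    exact pow_nonneg ht0.le _
  have hdet : v (Matrix.det (Matrix.of fun c a => nu (F := F) (fun a => r a + s a * q) s M a (f c))) ≤
      1 := by
    rw [Matrix.det_apply]
    refine na_sum hv _ _ zero_le_one fun σ _ => ?_
    rw [Units.smul_def, zsmul_eq_mul, map_mul]
    have hs : v ((Equiv.Perm.sign σ : ℤ) : F) = 1 := by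
      rcases Int.units_eq_one_or (Equiv.Perm.sign σ) with h | h <;> rw [h] <;> simp
    rw [hs, one_mul, map_prod]
    refine Finset.prod_le_one (fun i _ => v.nonneg _) fun i _ => ?_
    rw [Matrix.of_apply]
    unfold nu
    rw [map_mul]
    exact mul_le_one₀ (na_nat hv _) (v.nonneg _) (na_nat hv _)
  rw [map_mul]
  have hcf : ∀ c, v (cf β η⁻¹ k l M (f c) c) ≤ t ^ ((((f c).1 : ℕ) - k c) + Y * ((f c).2 : ℕ)) := by
    intro c
    unfold cf
    rw [map_mul, map_mul, map_mul, map_pow, map_pow, map_pow, map_pow, pow_add, pow_mul]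
    have h1 : v ((Nat.choose ((f c).1 : ℕ) (k c) : ℕ) : F) * (v β ^ l c) ^ k c ≤ 1 :=
      mul_le_one₀ (na_nat hv _) (by positivity) (pow_le_one₀ (by positivity)
        (pow_le_one₀ (v.nonneg _) hβ1))
    have h2 : v (β ^ l c - 1) ^ (((f c).1 : ℕ) - k c) ≤ t ^ (((f c).1 : ℕ) - k c) :=
      pow_le_pow_left₀ (v.nonneg _) (na_pow hv ht0.le hβ1 hβ _) _
    have h3 : v (η⁻¹ ^ l c - 1) ^ ((f c).2 : ℕ) ≤ (t ^ Y) ^ ((f c).2 : ℕ) :=
      pow_le_pow_left₀ (v.nonneg _) (na_pow hv (by positivity) hω1 hω2 _) _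
    calc _ ≤ (1 * t ^ (((f c).1 : ℕ) - k c)) * (t ^ Y) ^ ((f c).2 : ℕ) := by gcongr
      _ = _ := by rw [one_mul]
  calc v (∏ c, cf β η⁻¹ k l M (f c) c) * _ ≤ t ^ (n * (n - 1) / 2 - n * N) * 1 := by
        refine mul_le_mul ?_ hdet (v.nonneg _) (by positivity)
        rw [map_prod]
        calc ∏ c, v (cf β η⁻¹ k l M (f c) c)
            ≤ ∏ c, t ^ ((((f c).1 : ℕ) - k c) + Y * ((f c).2 : ℕ)) :=
              Finset.prod_le_prod (fun i _ => v.nonneg _) fun c _ => hcf c
          _ = t ^ (∑ c, ((((f c).1 : ℕ) - k c) + Y * ((f c).2 : ℕ))) :=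
              Finset.prod_pow_eq_pow_sum _ _ _
          _ ≤ _ := pow_le_pow_of_le_one ht0.le ht1.le (weight' hY f hf k hk)
    _ = _ := mul_one _

end fin

end Pool.Agent.Y228.AK
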